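import Mathlib

set_option autoImplicit false

namespace Pool.Agent.Results.MP_3f481b_al.AbelianKernels

universe u

/-- The intersection of the kernels of all continuous finite-dimensional complex representations
of `G`. -/
def KO (G : Type u) [Group G] [TopologicalSpace G] : Subgroup G :=
  ⨅ (n : ℕ) (_ : 1 ≤ n) (ρ : G →* Matrix.GeneralLinearGroup (Fin n) ℂ) (_ : Continuous ρ), ρ.ker

theorem mem_KO {G : Type u} [Group G] [TopologicalSpace G] {g : G} :
    g ∈ KO G ↔ ∀ n : ℕ, 1 ≤ n → ∀ ρ : G →* Matrix.GeneralLinearGroup (Fin n) ℂ,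
      Continuous ρ → ρ g = 1 := by
  simp [KO, Subgroup.mem_iInf, MonoidHom.mem_ker]

noncomputable section

variable (A : Type u)

/-- A discrete free abelian group with basis `ℕ × A`. -/
def E : Type u := (ℕ × A) →₀ ℤ

instance : AddCommGroup (E A) := inferInstanceAs (AddCommGroup ((ℕ × A) →₀ ℤ))
instance : TopologicalSpace (E A) := ⊥
instance : DiscreteTopology (E A) := ⟨rfl⟩

variable {A}

/-- Coordinates. -/
def co (x : E A) (k : ℕ × A) : ℤ := (show (ℕ × A) →₀ ℤ from x) k

theorem co_add (x y : E A) (k : ℕ × A) : co (x + y) k = co x k + co y k := Finsupp.add_apply _ _ _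
theorem co_neg (x : E A) (k : ℕ × A) : co (-x) k = - co x k := Finsupp.neg_apply _ _
theorem co_zero (k : ℕ × A) : co (0 : E A) k = 0 := rfl

variable [CommGroup A]

/-- The pairing. -/
def β (x y : E A) : A :=
  Finsupp.prod (show (ℕ × A) →₀ ℤ from x) (fun k c => k.2 ^ (c * co y k))

theorem β_add_left (x x' y : E A) : β (x + x') y = β x y * β x' y := by
  unfold β
  refine Finsupp.prod_add_index' (f := x) (g := x') ?_ ?_
  · intro k; simp
  · intro k c c'; rw [add_mul, zpow_add]

theorem β_zero_left (y : E A) : β 0 y = 1 := Finsupp.prod_zero_index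

theorem β_neg_left (x y : E A) : β (-x) y = (β x y)⁻¹ := by
  have h := β_add_left (-x) x y
  rw [neg_add_cancel, β_zero_left] at h
  exact eq_inv_of_mul_eq_one_left h.symm

theorem β_add_right (x y y' : E A) : β x (y + y') = β x y * β x y' := by
  unfold β
  rw [← Finsupp.prod_mul]
  refine Finsupp.prod_congr fun k _ => ?_
  rw [co_add, mul_add, zpow_add]

theorem β_zero_right (x : E A) : β x 0 = 1 := by
  have h := β_add_right x 0 0
  rw [add_zero] at h
  exact left_eq_mul.1 h

/-- Basis elements. -/
def bas (k : ℕ × A) : E A := Finsupp.single k (1 : ℤ)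

theorem β_bas (i j : ℕ) (a : A) : β (bas (i, a)) (bas (j, a)) = if i = j then a else 1 := by
  classical
  unfold β bas
  rw [Finsupp.prod_single_index (by simp)]
  have : co (A := A) (Finsupp.single (j, a) (1 : ℤ)) (i, a) = if i = j then 1 else 0 := by
    show (Finsupp.single (j, a) (1 : ℤ)) (i, a) = _
    rw [Finsupp.single_apply]
    by_cases h : i = j
    · simp [h]
    · have h' : ¬ (j, a) = (i, a) := fun h2 => h (Prod.mk.inj h2).1.symm
      simp [h, h']
  rw [this]
  split_ifs <;> simp

variable (A) in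
/-- The Heisenberg type group. -/
def H : Type u := A × E A × E A

variable [TopologicalSpace A]

instance : TopologicalSpace (H A) := inferInstanceAs (TopologicalSpace (A × E A × E A))

instance : Mul (H A) := ⟨fun g h => (g.1 * h.1 * β g.2.1 h.2.2, g.2.1 + h.2.1, g.2.2 + h.2.2)⟩
instance : One (H A) := ⟨((1 : A), (0 : E A), (0 : E A))⟩
instance : Inv (H A) := ⟨fun g => (g.1⁻¹ * β g.2.1 g.2.2, -g.2.1, -g.2.2)⟩

theorem mul_a (g h : H A) : (g * h).1 = g.1 * h.1 * β g.2.1 h.2.2 := rfl
theorem mul_x (g h : H A) : (g * h).2.1 = g.2.1 + h.2.1 := rfl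
theorem mul_y (g h : H A) : (g * h).2.2 = g.2.2 + h.2.2 := rfl
theorem one_a : (1 : H A).1 = 1 := rfl
theorem one_x : (1 : H A).2.1 = 0 := rfl
theorem one_y : (1 : H A).2.2 = 0 := rfl
theorem inv_a (g : H A) : (g⁻¹).1 = g.1⁻¹ * β g.2.1 g.2.2 := rfl
theorem inv_x (g : H A) : (g⁻¹).2.1 = -g.2.1 := rfl
theorem inv_y (g : H A) : (g⁻¹).2.2 = -g.2.2 := rfl

theorem H_ext {g h : H A} (h1 : g.1 = h.1) (h2 : g.2.1 = h.2.1) (h3 : g.2.2 = h.2.2) : g = h :=
  Prod.ext h1 (Prod.ext h2 h3)

instance : Group (H A) :=
  Group.ofLeftAxioms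
    (fun a b c => by
      refine H_ext ?_ ?_ ?_
      · simp only [mul_a, mul_x, mul_y, β_add_left, β_add_right]
        ac_rfl
      · simp only [mul_x, add_assoc]
      · simp only [mul_y, add_assoc])
    (fun a => by
      refine H_ext ?_ ?_ ?_
      · simp only [mul_a, one_a, one_x, β_zero_left, one_mul, mul_one]
      · simp only [mul_x, one_x, zero_add]
      · simp only [mul_y, one_y, zero_add])
    (fun a => by
      refine H_ext ?_ ?_ ?_
      · simp only [mul_a, one_a, inv_a, inv_x, β_neg_left]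
        rw [mul_comm a.1⁻¹, inv_mul_cancel_right, mul_inv_cancel]
      · simp only [mul_x, one_x, inv_x, neg_add_cancel]
      · simp only [mul_y, one_y, inv_y, neg_add_cancel])

theorem continuous_β {X : Type*} [TopologicalSpace X] {f g : X → E A} (hf : Continuous f)
    (hg : Continuous g) : Continuous (fun x => β (f x) (g x)) := by
  have h : Continuous (fun p : E A × E A => β p.1 p.2) := continuous_of_discreteTopology
  exact h.comp (hf.prodMk hg)

omit [CommGroup A] in
theorem ca : Continuous (fun g : H A => g.1) := continuous_fst (X := A) (Y := E A × E A)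
omit [CommGroup A] in
theorem cx : Continuous (fun g : H A => g.2.1) :=
  (continuous_fst (X := E A) (Y := E A)).comp (continuous_snd (X := A) (Y := E A × E A))
omit [CommGroup A] in
theorem cy : Continuous (fun g : H A => g.2.2) :=
  (continuous_snd (X := E A) (Y := E A)).comp (continuous_snd (X := A) (Y := E A × E A))

instance [IsTopologicalGroup A] : IsTopologicalGroup (H A) where
  continuous_mul := by
    have h1 : Continuous (fun p : H A × H A => p.1.1) := ca.comp continuous_fst
    have h2 : Continuous (fun p : H A × H A => p.2.1) := ca.comp continuous_snd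
    have h3 : Continuous (fun p : H A × H A => p.1.2.1) := cx.comp continuous_fst
    have h4 : Continuous (fun p : H A × H A => p.2.2.1) := cx.comp continuous_snd
    have h5 : Continuous (fun p : H A × H A => p.1.2.2) := cy.comp continuous_fst
    have h6 : Continuous (fun p : H A × H A => p.2.2.2) := cy.comp continuous_snd
    exact ((h1.mul h2).mul (continuous_β h3 h6)).prodMk ((h3.add h4).prodMk (h5.add h6))
  continuous_inv := by
    exact ((ca.inv).mul (continuous_β cx cy)).prodMk (cx.neg.prodMk cy.neg)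

instance [LocallyCompactSpace A] : LocallyCompactSpace (H A) :=
  inferInstanceAs (LocallyCompactSpace (A × E A × E A))
instance [T2Space A] : T2Space (H A) := inferInstanceAs (T2Space (A × E A × E A))

/-- Central elements. -/
def z (a : A) : H A := (a, (0 : E A), (0 : E A))
/-- First family. -/
def X (a : A) (i : ℕ) : H A := ((1 : A), bas (i, a), (0 : E A))
/-- Second family. -/
def Y (a : A) (i : ℕ) : H A := ((1 : A), (0 : E A), bas (i, a))

theorem XY (a : A) (i j : ℕ) : X a i * Y a j = z (if i = j then a else 1) * (Y a j * X a i) := by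
  refine H_ext ?_ ?_ ?_
  · show (1 : A) * 1 * β (bas (i, a)) (bas (j, a)) =
      (if i = j then a else 1) * (1 * 1 * β 0 0) * β 0 (bas (j, a) + 0)
    rw [β_bas, β_zero_left, β_zero_left]
    simp
  · show bas (i, a) + 0 = (0 : E A) + (0 + bas (i, a))
    simp
  · show (0 : E A) + bas (j, a) = 0 + (bas (j, a) + 0)
    simp

theorem z_mem_KO (a : A) : z a ∈ KO (H A) := by
  rw [mem_KO]
  intro n _ ρ _
  -- the matrices
  let M : ℕ → Matrix (Fin n) (Fin n) ℂ := fun i => (ρ (X a i) : Matrix (Fin n) (Fin n) ℂ)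
  have hdep : ¬ LinearIndependent ℂ M := by
    intro hli
    have := hli.finite
    exact not_finite ℕ
  rw [not_linearIndependent_iff] at hdep
  obtain ⟨s, c, hsum, j, hj, hcj⟩ := hdep
  have hone : z (1 : A) = 1 := rfl
  have hcomm : ∀ i, i ≠ j → M i * (ρ (Y a j) : Matrix (Fin n) (Fin n) ℂ) =
      (ρ (Y a j) : Matrix (Fin n) (Fin n) ℂ) * M i := by
    intro i hij
    have h := congrArg (fun g => (ρ g : Matrix (Fin n) (Fin n) ℂ)) (XY a i j)
    simp only [map_mul, Units.val_mul, if_neg hij, hone, one_mul] at h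
    exact h
  have hj2 : M j * (ρ (Y a j) : Matrix (Fin n) (Fin n) ℂ) =
      (ρ (z a) : Matrix (Fin n) (Fin n) ℂ) * ((ρ (Y a j) : Matrix (Fin n) (Fin n) ℂ) * M j) := by
    have h := congrArg (fun g => (ρ g : Matrix (Fin n) (Fin n) ℂ)) (XY a j j)
    simp only [map_mul, Units.val_mul, if_true] at h
    exact h
  have h1 : ∑ i ∈ s, c i • (M i * (ρ (Y a j) : Matrix (Fin n) (Fin n) ℂ) -
      (ρ (Y a j) : Matrix (Fin n) (Fin n) ℂ) * M i) = 0 := by
    have e1 : (∑ i ∈ s, c i • M i) * (ρ (Y a j) : Matrix (Fin n) (Fin n) ℂ) = 0 := by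
      rw [hsum, zero_mul]
    have e2 : (ρ (Y a j) : Matrix (Fin n) (Fin n) ℂ) * (∑ i ∈ s, c i • M i) = 0 := by
      rw [hsum, mul_zero]
    rw [Finset.sum_mul] at e1
    rw [Finset.mul_sum] at e2
    simp only [smul_sub, Finset.sum_sub_distrib]
    simp only [smul_mul_assoc] at e1
    simp only [mul_smul_comm] at e2
    rw [e1, e2, sub_zero]
  rw [Finset.sum_eq_single j (fun i _ hij => by rw [hcomm i hij, sub_self, smul_zero])
    (fun h => absurd hj h)] at h1
  have h2 := (smul_eq_zero.1 h1).resolve_left hcj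
  rw [sub_eq_zero, hj2] at h2
  -- cancel the invertible matrix
  have h3 : ρ (z a) * (ρ (Y a j) * ρ (X a j)) = ρ (Y a j) * ρ (X a j) := by
    apply Units.ext
    simpa using h2
  exact mul_eq_right.1 h3

/-- The characters of the discrete quotient. -/
def χ (f : H A → ℤ) (hf : ∀ g h, f (g * h) = f g + f h) :
    H A →* Matrix.GeneralLinearGroup (Fin 1) ℂ :=
  (Units.map (Matrix.scalar (Fin 1)).toMonoidHom).comp
    ((zpowersHom ℂˣ (Units.mk0 (2 : ℂ) two_ne_zero)).comp
      (MonoidHom.mk' (fun g => Multiplicative.ofAdd (f g)) (fun g h => by rw [hf]; rfl)))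

theorem χ_continuous (f : H A → ℤ) (hf : ∀ g h, f (g * h) = f g + f h) (hc : Continuous f) :
    Continuous (χ f hf) := by
  have h : (χ f hf : H A → Matrix.GeneralLinearGroup (Fin 1) ℂ) =
      (fun n : ℤ => (Units.map (Matrix.scalar (Fin 1)).toMonoidHom)
        ((Units.mk0 (2 : ℂ) two_ne_zero) ^ n)) ∘ f := rfl
  rw [h]
  exact continuous_of_discreteTopology.comp hc

theorem eq_zero_of_χ (f : H A → ℤ) (hf : ∀ g h, f (g * h) = f g + f h) (g : H A)
    (h : χ f hf g = 1) : f g = 0 := by
  have h1 : (Units.map (Matrix.scalar (Fin 1)).toMonoidHom)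
        ((Units.mk0 (2 : ℂ) two_ne_zero) ^ (f g)) = 1 := h
  have h2 : Matrix.scalar (Fin 1) (((Units.mk0 (2 : ℂ) two_ne_zero) ^ (f g) : ℂˣ) : ℂ) = 1 :=
    congrArg Units.val h1
  have h3 : ((2 : ℂ) ^ (f g)) = 1 := by
    have h5 := congrFun (congrFun h2 0) 0
    rw [Matrix.scalar_apply, Matrix.diagonal_apply_eq, Matrix.one_apply_eq,
      Units.val_zpow_eq_zpow_val, Units.val_mk0] at h5
    exact h5
  have h4 : ((2 : ℝ) ^ (f g)) = 1 := by
    have := congrArg norm h3
    simpa using this
  by_contra hne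
  exact hne ((zpow_eq_one_iff_right₀ (by norm_num) (by norm_num)).1 h4)

theorem of_mem_KO {g : H A} (hg : g ∈ KO (H A)) : g.2.1 = 0 ∧ g.2.2 = 0 := by
  rw [mem_KO] at hg
  constructor
  · refine Finsupp.ext fun k => ?_
    refine eq_zero_of_χ (fun g => co g.2.1 k) (fun g h => co_add _ _ _) g
      (hg 1 le_rfl _ (χ_continuous _ _ ?_))
    exact (continuous_of_discreteTopology (f := fun x : E A => co x k)).comp cx
  · refine Finsupp.ext fun k => ?_
    refine eq_zero_of_χ (fun g => co g.2.2 k) (fun g h => co_add _ _ _) g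
      (hg 1 le_rfl _ (χ_continuous _ _ ?_))
    exact (continuous_of_discreteTopology (f := fun x : E A => co x k)).comp cy

/-- The isomorphism. -/
def iso : KO (H A) ≃ₜ* A where
  toFun g := g.1.1
  invFun a := ⟨z a, z_mem_KO a⟩
  left_inv g := by
    obtain ⟨h1, h2⟩ := of_mem_KO g.2
    exact Subtype.ext (H_ext rfl h1.symm h2.symm)
  right_inv a := rfl
  map_mul' g h := by
    obtain ⟨h1, h2⟩ := of_mem_KO g.2
    show g.1.1 * h.1.1 * β g.1.2.1 h.1.2.2 = g.1.1 * h.1.1
    rw [h1, β_zero_left, mul_one]
  continuous_toFun := ca.comp continuous_subtype_val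
  continuous_invFun := by
    refine Continuous.subtype_mk ?_ _
    have h1 : Continuous (fun a : A => a) := continuous_id
    have h2 : Continuous (fun _ : A => (0 : E A)) := continuous_const
    exact h1.prodMk (h2.prodMk h2)

end

/-- Every locally compact Hausdorff abelian group `A` (in particular every compact one) is
isomorphic, as a topological group, to the intersection of the kernels of all continuous
finite-dimensional complex representations of some locally compact Hausdorff group. -/
theorem result (A : Type u) [CommGroup A] [TopologicalSpace A] [IsTopologicalGroup A]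
    [LocallyCompactSpace A] [T2Space A] :
    ∃ (G : Type u) (_ : Group G) (_ : TopologicalSpace G), IsTopologicalGroup G ∧
      LocallyCompactSpace G ∧ T2Space G ∧ Nonempty (KO G ≃ₜ* A) :=
  ⟨H A, inferInstance, inferInstance, inferInstance, inferInstance, inferInstance, ⟨iso⟩⟩

end Pool.Agent.Results.MP_3f481b_al.AbelianKernels
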